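import Pool.Agent.R368.Zero.Defs
import Pool.Agent.R368.Nor.Main
import Pool.Agent.R903.Lef

/-!
# Correspondences acting on zero-cycles
-/

open CategoryTheory CategoryTheory.Limits AlgebraicGeometry
open Pool.Agent.H914 Pool.Agent.H914.VarClass Pool.Agent.H914.VarClass.Obj
open Pool.Agent.R903 Pool.Agent.R903.WeilTheory

universe u v w

namespace Pool.Agent.R368.Zero

variable {k : Type u} [Field k] {𝒱 : VarClass k} {C : ChowTheory.{u, v} 𝒱}
  {W : WeilTheory.{u, v, w} C} {X Y Γ : 𝒱.Obj}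

lemma push_fst_pull_snd (X Y : 𝒱.Obj) (y : C.CH Y) :
    C.push (fst X Y) (C.pull (snd X Y) y) = algebraMap ℚ (C.CH X) (C.deg Y y) := by
  have e1 : fst X Y = (swap X Y) ≫ snd Y X := by simp
  have e2 : snd X Y = (swap X Y) ≫ fst Y X := by simp
  rw [e1, e2, C.push_comp, C.pull_comp, C.push_pull_iso, C.push_snd_pull_fst]

lemma algebraMap_mul_eq (q : ℚ) (x : C.CH X) : algebraMap ℚ (C.CH X) q * x = q • x :=
  (Algebra.smul_def q x).symm

/-- The product trick. -/
theorem killsPoints_of_product (hP : C.Polarized) (hΓ : Γ.dim = 1) {γ : C.CH (Γ.prod X)}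
    (hγ : γ ∈ C.gr (Γ.prod X) X.dim)
    (h : ∀ δ ∈ C.gr ((Γ.prod X).prod (Γ.prod X)) (Γ.prod X).dim,
      (∀ a, (∀ b, W.act (C.graph (fst Γ X)) a = b → W.act γ b = 0) → W.act δ a = 0) →
        KillsPoints W δ) : KillsPoints W γ := by
  obtain ⟨o, ho, hdeg⟩ := hP Γ
  obtain ⟨D, hD, hdegX⟩ := hP X
  rw [hΓ, pow_one] at hdeg
  set x₀ : C.CH X := D ^ X.dim with hx₀
  have hx₀mem : x₀ ∈ C.gr X X.dim := by
    have h1 : ∀ m : ℕ, D ^ m ∈ C.gr X m := by
      intro m
      induction m with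
      | zero => rw [pow_zero]; exact C.one_mem X
      | succ m ih => rw [pow_succ]; exact C.mul_mem ih hD
    exact h1 _
  have hZ : (Γ.prod X).dim = 1 + X.dim := by rw [dim_prod, hΓ]
  set σ : C.CH (X.prod (Γ.prod X)) := C.span (snd Γ X) (𝟙 _) (C.pull (fst Γ X) o) with hσ
  have hσmem : σ ∈ C.gr (X.prod (Γ.prod X)) (1 + X.dim) :=
    C.span_mem _ _ (C.pull_mem _ ho) (by rw [hZ]; omega)
  have hg : C.graph (fst Γ X) ∈ C.gr ((Γ.prod X).prod Γ) 1 := by
    have := C.graph_mem (fst Γ X)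
    rwa [hΓ] at this
  set δ := C.comp (C.comp (C.graph (fst Γ X)) γ) σ with hδ
  have hδmem : δ ∈ C.gr ((Γ.prod X).prod (Γ.prod X)) (Γ.prod X).dim :=
    C.comp_mem (r := (Γ.prod X).dim) (C.comp_mem (r := X.dim) hg hγ (by rw [hΓ]; omega)) hσmem
      (by rw [hZ]; omega)
  have hδact : ∀ a, W.act δ a = W.act σ (W.act γ (W.act (C.graph (fst Γ X)) a)) := by
    intro a
    rw [hδ, W.act_comp _ hσmem, W.act_comp _ hγ]
  have hk := h δ hδmem (fun a ha => by rw [hδact, ha _ rfl, map_zero])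
  intro y hy
  have hw := hk (C.pull (fst Γ X) y * C.pull (snd Γ X) x₀) ⟨?_, ?_⟩
  · have h1 : C.act (C.graph (fst Γ X)) (C.pull (fst Γ X) y * C.pull (snd Γ X) x₀) =
        C.deg X x₀ • y := by
      rw [C.act_graph, C.mul_push, push_fst_pull_snd, mul_comm, algebraMap_mul_eq]
    rw [hδ, C.act_comp, C.act_comp, h1, hσ, C.act_span, C.push_id, map_smul, map_smul,
      mul_smul_comm] at hw
    have h2 := (smul_eq_zero.1 hw).resolve_left hdegX
    have h3 := congrArg (C.push (snd Γ X)) h2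
    rw [C.push_mul, C.push_snd_pull_fst, algebraMap_mul_eq, map_zero] at h3
    exact (smul_eq_zero.1 h3).resolve_left hdeg
  · rw [hZ]
    have h1 := hy.1
    rw [hΓ] at h1
    exact C.mul_mem (C.pull_mem _ h1) (C.pull_mem _ hx₀mem)
  · rw [W.cl_mul, W.cl_pull, hy.2, map_zero, zero_mul]

/-! ### From self-correspondences to correspondences from curves -/

theorem allCurves_of_allWeight (hP : C.Polarized) (h : AllWeight W) : AllCurves W := by
  intro Γ X hΓ γ hγ hk
  have hZ : (Γ.prod X).dim = 1 + X.dim := by rw [dim_prod, hΓ]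
  refine killsPoints_of_product hP hΓ hγ fun δ hδ hδ0 => h _ (by omega) δ hδ fun a ha => ?_
  refine hδ0 a fun b hb => hk b ?_
  rw [← hb]
  exact W.act_mem (C.graph_mem (fst Γ X)) ha (by rw [hΓ, hZ]; omega)

theorem deg_eq_zero_of_inKer {y : C.CH Γ} {m : ℕ} (hy : InKer (W.cl Γ) (C.gr Γ m) y) :
    C.deg Γ y = 0 := by
  have h1 := W.tr_cl y
  rw [hy.2, map_zero] at h1
  exact_mod_cast h1.symm

/-- A correspondence on a curve which kills `H^0` and `H^2` and fixes the homologically trivial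
divisor classes. -/
theorem exists_curve_projector (hP : C.Polarized) (hΓ : Γ.dim = 1) :
    ∃ ρ ∈ C.gr (Γ.prod Γ) 1, (∀ a ∈ W.gr Γ 0, W.act ρ a = 0) ∧ (∀ a ∈ W.gr Γ 2, W.act ρ a = 0) ∧
      ∀ y, InKer (W.cl Γ) (C.gr Γ Γ.dim) y → C.act ρ y = y := by
  obtain ⟨o, ho, hdeg⟩ := hP Γ
  rw [hΓ, pow_one] at hdeg
  have hdegK : (C.deg Γ o : W.K) ≠ 0 := by exact_mod_cast hdeg
  have htr1 : W.tr Γ 1 = 0 := W.tr_eq_zero (W.one_mem Γ) (by rw [hΓ]; omega)
  have hfst : ∀ a : W.H Γ, W.act (C.pull (fst Γ Γ) o) a = W.tr Γ (W.cl Γ o * a) • (1 : W.H Γ) := by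
    intro a
    rw [act_apply, W.cl_pull, ← W.map_mul']
    have := W.push_snd (X := Γ) (Y := Γ) (W.cl Γ o * a) 1
    rwa [map_one, mul_one] at this
  have hsnd : ∀ a : W.H Γ, W.act (C.pull (snd Γ Γ) o) a = W.tr Γ a • W.cl Γ o := by
    intro a
    rw [act_apply, W.cl_pull, W.even_comm (p := 1) (W.map_mem _ (W.cl_mem ho)), W.push_snd]
  refine ⟨C.diagC Γ - (C.deg Γ o)⁻¹ • C.pull (fst Γ Γ) o - (C.deg Γ o)⁻¹ • C.pull (snd Γ Γ) o,
    ?_, ?_, ?_, ?_⟩
  · have h1 := C.diagC_mem Γ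
    rw [hΓ] at h1
    exact Submodule.sub_mem _ (Submodule.sub_mem _ h1
      (Submodule.smul_mem _ _ (C.pull_mem _ ho))) (Submodule.smul_mem _ _ (C.pull_mem _ ho))
  · intro a ha
    rw [(W.isPoincareAlgebra Γ).gr_zero, Submodule.mem_span_singleton] at ha
    obtain ⟨c, rfl⟩ := ha
    rw [map_smul, W.act_sub, W.act_sub, W.act_smul, W.act_smul, LinearMap.sub_apply,
      LinearMap.sub_apply, LinearMap.smul_apply, LinearMap.smul_apply, W.act_diagC, hfst, hsnd,
      mul_one, W.tr_cl, htr1, zero_smul, smul_zero, smul_smul]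
    push_cast
    rw [inv_mul_cancel₀ hdegK, one_smul, sub_self, sub_zero, smul_zero]
  · intro a ha
    rw [W.act_sub, W.act_sub, W.act_smul, W.act_smul, LinearMap.sub_apply,
      LinearMap.sub_apply, LinearMap.smul_apply, LinearMap.smul_apply, W.act_diagC, hfst, hsnd,
      W.tr_eq_zero (W.mul_mem (W.cl_mem ho) ha) (by rw [hΓ]; omega), zero_smul, smul_zero, sub_zero]
    set a' := a - ((C.deg Γ o)⁻¹ : W.K) • W.tr Γ a • W.cl Γ o with ha'
    have hmem : a' ∈ W.gr Γ 2 :=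
      Submodule.sub_mem _ ha (Submodule.smul_mem _ _ (Submodule.smul_mem _ _ (W.cl_mem ho)))
    have htr : W.tr Γ a' = 0 := by
      rw [ha', map_sub, map_smul, map_smul, W.tr_cl, smul_eq_mul, smul_eq_mul]
      field_simp
      ring
    have hz : a' = 0 := by
      apply W.nondeg
      intro b
      refine gr_induction (W.isInternal Γ) (p := fun b => W.tr Γ (a' * b) = 0) ?_ ?_ b
      · intro l b hb
        by_cases hl : l = 0
        · subst hl
          rw [(W.isPoincareAlgebra Γ).gr_zero, Submodule.mem_span_singleton] at hb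
          obtain ⟨c, rfl⟩ := hb
          rw [mul_smul_comm, mul_one, map_smul, htr, smul_zero]
        · exact W.tr_eq_zero (W.mul_mem hmem hb) (by rw [hΓ]; omega)
      · intro b b' hb hb'
        rw [mul_add, map_add, hb, hb', add_zero]
    rw [Rat.cast_inv]
    exact hz
  · intro y hy
    have hdy := deg_eq_zero_of_inKer hy
    have h1 : C.act (C.pull (fst Γ Γ) o) y = 0 := by
      rw [C.act_apply, ← C.pull_mul]
      have h2 : o * y = 0 := by
        have h3 : o * y ∈ C.gr Γ (1 + Γ.dim) := C.mul_mem ho hy.1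
        rw [(C.isChowRing Γ).gr_eq_bot _ (by show Γ.dim < _; omega), Submodule.mem_bot] at h3
        exact h3
      rw [h2, map_zero, map_zero]
    have h2 : C.act (C.pull (snd Γ Γ) o) y = 0 := by
      rw [C.act_apply, C.mul_push, C.push_snd_pull_fst, hdy, map_zero, mul_zero]
    rw [C.act_sub, C.act_sub, C.act_smul, C.act_smul, LinearMap.sub_apply, LinearMap.sub_apply,
      LinearMap.smul_apply, LinearMap.smul_apply, h1, h2, C.act_diagC, smul_zero, sub_zero,
      sub_zero]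

theorem allCurves_of_allHomTrivial (hP : C.Polarized) (h : AllHomTrivial W) : AllCurves W := by
  intro Γ X hΓ γ hγ hk
  have hZ : (Γ.prod X).dim = 1 + X.dim := by rw [dim_prod, hΓ]
  obtain ⟨ρ, hρ, h0, h2, hfix⟩ := exists_curve_projector (W := W) hP hΓ
  have hmem : C.comp ρ γ ∈ C.gr (Γ.prod X) X.dim := C.comp_mem hρ hγ (by rw [hΓ]; omega)
  have hzero : ∀ a, W.act (C.comp ρ γ) a = 0 := by
    intro a
    rw [W.act_comp _ hγ]
    refine gr_induction (W.isInternal Γ) (p := fun a => W.act γ (W.act ρ a) = 0) ?_ ?_ a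
    · intro l a ha
      by_cases hl0 : l = 0
      · subst hl0; rw [h0 a ha, map_zero]
      by_cases hl1 : l = 1
      · subst hl1
        exact hk _ (W.act_mem hρ ha (by rw [hΓ]))
      by_cases hl2 : l = 2
      · subst hl2; rw [h2 a ha, map_zero]
      · rw [W.gr_eq_bot Γ l (by rw [hΓ]; omega), Submodule.mem_bot] at ha
        rw [ha, map_zero, map_zero]
    · intro a b ha hb
      rw [map_add, map_add, ha, hb, add_zero]
  have hkill : KillsPoints W (C.comp ρ γ) :=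
    killsPoints_of_product hP hΓ hmem fun δ hδ hδ0 => h _ (by omega) δ hδ fun a _ =>
      hδ0 a fun b _ => hzero b
  intro y hy
  have h3 := hkill y hy
  rwa [C.act_comp, hfix y hy] at h3

/-! ### From curves to all varieties -/

theorem allWeight_of_allCurves (hC : CurveGenerated W) (h : AllCurves W) : AllWeight W := by
  intro X hX γ hγ hk z hz
  obtain ⟨Γ, f, y, hΓ, hy, rfl⟩ := hC X z hz
  have hmem : C.comp (C.graph f) γ ∈ C.gr (Γ.prod X) X.dim :=
    C.comp_mem (C.graph_mem f) hγ rfl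
  have h1 := h Γ X hΓ _ hmem (fun a ha => by
    rw [W.act_comp _ hγ]
    exact hk _ (W.act_mem (C.graph_mem f) ha (by rw [hΓ]; omega))) y (by rw [hΓ]; exact hy)
  rwa [C.act_comp, C.act_graph] at h1

theorem allHomTrivial_of_allWeight (h : AllWeight W) : AllHomTrivial W :=
  fun X hX γ hγ hk => h X hX γ hγ fun a _ => hk a trivial

theorem allDegree_of_allWeight (h : AllWeight W) : AllDegree W := by
  intro X hX d hd z hz
  have h1 := h X hX (d - (2 * X.dim - 1 : ℚ) • C.diagC X)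
    (Submodule.sub_mem _ hd.1 (Submodule.smul_mem _ _ (C.diagC_mem X))) (fun a ha => by
      rw [W.act_sub, W.act_smul, LinearMap.sub_apply, LinearMap.smul_apply, W.act_diagC,
        hd.2 _ a ha, Nat.cast_sub (by omega)]
      push_cast
      rw [sub_self]) z hz
  rw [C.act_sub, C.act_smul, LinearMap.sub_apply, LinearMap.smul_apply, C.act_diagC,
    sub_eq_zero] at h1
  exact h1

theorem allHomTrivial_of_allDegree (hK : W.Kunneth) (h : AllDegree W) : AllHomTrivial W := by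
  intro X hX γ hγ hk z hz
  obtain ⟨d, hd⟩ := exists_isDegree (W := W) (X := X) (fun j => hK X j)
  have hd' : W.IsDegree X (d + γ) := by
    refine ⟨Submodule.add_mem _ hd.1 hγ, fun j a ha => ?_⟩
    rw [W.act_add, LinearMap.add_apply, hd.2 j a ha, hk a trivial, add_zero]
  have h1 := h X hX _ hd' z hz
  rw [C.act_add, LinearMap.add_apply, h X hX d hd z hz] at h1
  exact add_eq_left.1 h1

/-! ### The maps `D^(n-1)` -/

lemma pow_mem {D : C.CH X} (hD : D ∈ C.gr X 1) (m : ℕ) : D ^ m ∈ C.gr X m := by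
  induction m with
  | zero => rw [pow_zero]; exact C.one_mem X
  | succ m ih => rw [pow_succ]; exact C.mul_mem ih hD

/-- The correspondence `x ↦ D^(n-1) x`. -/
lemma act_lef (D : C.CH X) (m : ℕ) (x : C.CH X) : C.act (C.span (𝟙 X) (𝟙 X) (D ^ m)) x = D ^ m * x := by
  rw [C.act_span, C.push_id, C.pull_id]

lemma actH_lef (D : C.CH X) (m : ℕ) (a : W.H X) :
    W.act (C.span (𝟙 X) (𝟙 X) (D ^ m)) a = W.cl X (D ^ m) * a := by
  rw [W.act_span, W.push_id, W.map_id]

theorem IsLefOne.left (hX : 0 < X.dim) (hF : DivisorsByH1 W) {D : C.CH X} {Λ : C.CH (X.prod X)}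
    (h : IsLefOne W X D Λ) {y : C.CH X} (hy : InKer (W.cl X) (C.gr X 1) y) :
    C.act Λ (D ^ (X.dim - 1) * y) = y := by
  have hL : C.span (𝟙 X) (𝟙 X) (D ^ (X.dim - 1)) ∈ C.gr (X.prod X) (X.dim - 1 + X.dim) :=
    C.span_mem _ _ (pow_mem h.1 _) (by omega)
  have h1 := hF X (C.comp (C.span (𝟙 X) (𝟙 X) (D ^ (X.dim - 1))) Λ - C.diagC X)
    (Submodule.sub_mem _ (C.comp_mem hL h.2.1 (by omega)) (C.diagC_mem X)) (fun a ha => by
      rw [W.act_sub, LinearMap.sub_apply, W.act_comp _ h.2.1, W.act_diagC, actH_lef,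
        h.2.2.1 a ha, sub_self]) y hy
  rwa [C.act_sub, LinearMap.sub_apply, C.act_comp, act_lef, C.act_diagC, sub_eq_zero] at h1

theorem allArithLef_of_allWeight (hF : DivisorsByH1 W) (h : AllWeight W) : AllArithLef W := by
  intro X hX D Λ hL
  refine ⟨fun y hy h0 => ?_, fun z hz => ?_⟩
  · rw [← hL.left hX hF hy, h0, map_zero]
  · have hLm : C.span (𝟙 X) (𝟙 X) (D ^ (X.dim - 1)) ∈ C.gr (X.prod X) (X.dim - 1 + X.dim) :=
      C.span_mem _ _ (pow_mem hL.1 _) (by omega)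
    have h1 := h X hX (C.comp Λ (C.span (𝟙 X) (𝟙 X) (D ^ (X.dim - 1))) - C.diagC X)
      (Submodule.sub_mem _ (C.comp_mem hL.2.1 hLm (by omega)) (C.diagC_mem X)) (fun b hb => by
        rw [W.act_sub, LinearMap.sub_apply, W.act_comp _ hLm, W.act_diagC, actH_lef,
          hL.2.2.2 b hb, sub_self]) z hz
    rw [C.act_sub, LinearMap.sub_apply, C.act_comp, act_lef, C.act_diagC, sub_eq_zero] at h1
    refine ⟨C.act Λ z, ⟨C.act_mem hL.2.1 hz.1 (by omega), ?_⟩, h1⟩
    rw [W.cl_act, hz.2, map_zero]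

theorem allWeight_of_someSurj (hF : DivisorsByH1 W) (h : SomeSurj W) : AllWeight W := by
  intro X hX γ hγ hk z hz
  obtain ⟨D, Λ, hL, hS⟩ := h X hX
  obtain ⟨y, hy, rfl⟩ := hS z hz
  have hpz : InKer (W.cl X) (C.gr X X.dim) (C.act γ (D ^ (X.dim - 1) * y)) :=
    ⟨C.act_mem hγ hz.1 (by omega), by rw [W.cl_act, hz.2, map_zero]⟩
  obtain ⟨y', hy', hyy⟩ := hS _ hpz
  have hLm : C.span (𝟙 X) (𝟙 X) (D ^ (X.dim - 1)) ∈ C.gr (X.prod X) (X.dim - 1 + X.dim) :=
    C.span_mem _ _ (pow_mem hL.1 _) (by omega)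
  have h1 := hF X (C.comp (C.comp (C.span (𝟙 X) (𝟙 X) (D ^ (X.dim - 1))) γ) Λ)
    (C.comp_mem (C.comp_mem (r := X.dim - 1 + X.dim) hLm hγ (by omega)) hL.2.1 (by omega))
    (fun a ha => by
      rw [W.act_comp _ hL.2.1, W.act_comp _ hγ, actH_lef]
      have h2 : W.cl X (D ^ (X.dim - 1)) * a ∈ W.gr X (2 * X.dim - 1) := by
        have h3 := W.mul_mem (W.cl_mem (pow_mem hL.1 (X.dim - 1))) ha
        rwa [show 2 * (X.dim - 1) + 1 = 2 * X.dim - 1 by omega] at h3
      rw [hk _ h2, map_zero]) y hy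
  rw [C.act_comp, C.act_comp, act_lef, ← hyy, hL.left hX hF hy'] at h1
  rw [← hyy, h1, mul_zero]

theorem someSurj_of_allArithLef (hH : HasLefOne W) (h : AllArithLef W) : SomeSurj W := by
  intro X hX
  obtain ⟨D, Λ, hL⟩ := hH X hX
  exact ⟨D, Λ, hL, (h X hX D Λ hL).2⟩

theorem zero_tfae (hF : HasOneCycleFacts W) :
    List.TFAE [AllArithLef W, SomeSurj W, AllWeight W, AllHomTrivial W, AllCurves W] := by
  tfae_have 1 → 2 := someSurj_of_allArithLef hF.hasLefOne
  tfae_have 2 → 3 := allWeight_of_someSurj hF.divisorsByH1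
  tfae_have 3 → 4 := allHomTrivial_of_allWeight
  tfae_have 4 → 5 := allCurves_of_allHomTrivial hF.polarized
  tfae_have 5 → 3 := allWeight_of_allCurves hF.curveGenerated
  tfae_have 3 → 1 := allArithLef_of_allWeight hF.divisorsByH1
  tfae_finish

end Pool.Agent.R368.Zero
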