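import Pool.Agent.R903.Chow

/-!
# Correspondences acting on zero-cycles: definitions
-/

open CategoryTheory CategoryTheory.Limits AlgebraicGeometry
open Pool.Agent.H914 Pool.Agent.H914.VarClass Pool.Agent.H914.VarClass.Obj
open Pool.Agent.R903

universe u v w

namespace Pool.Agent.R368.Zero

section Abstract

/-- `T` kills the subspace `U`. -/
def KillsSub {K : Type w} [Field K] {V V' : Type w} [AddCommGroup V] [Module K V]
    [AddCommGroup V'] [Module K V'] (U : Submodule K V) (T : V →ₗ[K] V') : Prop :=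
  ∀ a ∈ U, T a = 0

variable {A B : Type v} [CommRing A] [Algebra ℚ A] [CommRing B] [Algebra ℚ B] {H : Type w} [Ring H]

/-- `x` lies in `U` and in the kernel of `f`. -/
def InKer (f : A →+* H) (U : Submodule ℚ A) (x : A) : Prop :=
  x ∈ U ∧ f x = 0

/-- `T` kills the kernel of `f` on `U`. -/
def KillsKer (f : A →+* H) (U : Submodule ℚ A) (T : A →ₗ[ℚ] B) : Prop :=
  ∀ x, InKer f U x → T x = 0

/-- `T` acts on the kernel of `f` on `U` as multiplication by `q`. -/
def ScalesKer (f : A →+* H) (U : Submodule ℚ A) (T : A →ₗ[ℚ] A) (q : ℚ) : Prop :=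
  ∀ x, InKer f U x → T x = q • x

/-- Each element of the kernel of `f` on `U'` is `D^m y` with `y` in the kernel of `f` on `U`. -/
def MulSurj (f : A →+* H) (U U' : Submodule ℚ A) (D : A) (m : ℕ) : Prop :=
  ∀ z, InKer f U' z → ∃ y, InKer f U y ∧ D ^ m * y = z

/-- If `y` is in the kernel of `f` on `U` and `D^m y = 0` then `y = 0`. -/
def MulInj (f : A →+* H) (U : Submodule ℚ A) (D : A) (m : ℕ) : Prop :=
  ∀ y, InKer f U y → D ^ m * y = 0 → y = 0

/-- On `G` the map `T` is inverse to the multiplication by `c`, with values in `G'`. -/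
def IsInverseMul {K : Type w} [Field K] {V : Type w} [Ring V] [Algebra K V] (G G' : Submodule K V)
    (c : V) (T : V →ₗ[K] V) : Prop :=
  (∀ a ∈ G, T (c * a) = a) ∧ ∀ b ∈ G', c * T b = b

end Abstract

variable {k : Type u} [Field k] {𝒱 : VarClass k} {C : ChowTheory.{u, v} 𝒱}

/-- The correspondence `γ` from `X` to `Y` kills the homologically trivial zero-cycles on `X`. -/
def KillsPoints (W : WeilTheory.{u, v, w} C) {X Y : 𝒱.Obj} (γ : C.CH (X.prod Y)) : Prop :=
  KillsKer (W.cl X) (C.gr X X.dim) (C.act γ)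

/-- `Λ` in `CH^1(X × X)` is inverse to `D^(n-1) : H^1(X) → H^(2n-1)(X)`, for `D` in `CH^1(X)` and
`n = dim X`. -/
def IsLefOne (W : WeilTheory.{u, v, w} C) (X : 𝒱.Obj) (D : C.CH X) (Λ : C.CH (X.prod X)) : Prop :=
  D ∈ C.gr X 1 ∧ Λ ∈ C.gr (X.prod X) 1 ∧
    IsInverseMul (W.gr X 1) (W.gr X (2 * X.dim - 1)) (W.cl X (D ^ (X.dim - 1))) (W.act Λ)

/-- The map `D^(n-1) : CH^1(X)_hom → CH^n(X)_hom` is surjective, `n = dim X`. -/
def SurjOne (W : WeilTheory.{u, v, w} C) (X : 𝒱.Obj) (D : C.CH X) : Prop :=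
  MulSurj (W.cl X) (C.gr X 1) (C.gr X X.dim) D (X.dim - 1)

/-- The map `D^(n-1) : CH^1(X)_hom → CH^n(X)_hom` is bijective, `n = dim X`. -/
def ArithLefOne (W : WeilTheory.{u, v, w} C) (X : 𝒱.Obj) (D : C.CH X) : Prop :=
  MulInj (W.cl X) (C.gr X 1) D (X.dim - 1) ∧ SurjOne W X D

/-- Each homologically trivial zero-cycle on a variety `X` in `𝒱` is the image of one on a curve in
`𝒱` under a morphism. -/
def CurveGenerated (W : WeilTheory.{u, v, w} C) : Prop :=
  ∀ (X : 𝒱.Obj) (z : C.CH X), InKer (W.cl X) (C.gr X X.dim) z →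
    ∃ (Γ : 𝒱.Obj) (f : Γ ⟶ X) (y : C.CH Γ), Γ.dim = 1 ∧ InKer (W.cl Γ) (C.gr Γ 1) y ∧
      C.push f y = z

/-- Correspondences in `CH^(dim X)(X × X)` which act as zero on `H^1(X)` kill the homologically
trivial divisor classes. -/
def DivisorsByH1 (W : WeilTheory.{u, v, w} C) : Prop :=
  ∀ X : 𝒱.Obj, ∀ γ ∈ C.gr (X.prod X) X.dim, KillsSub (W.gr X 1) (W.act γ) →
    KillsKer (W.cl X) (C.gr X 1) (C.act γ)

/-- Each `X` of positive dimension has a divisor class `D` such that the inverse of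
`D^(n-1) : H^1(X) → H^(2n-1)(X)` is given by a correspondence. -/
def HasLefOne (W : WeilTheory.{u, v, w} C) : Prop :=
  ∀ X : 𝒱.Obj, 0 < X.dim → ∃ D Λ, IsLefOne W X D Λ

/-- The known facts on zero-cycles and divisors which are used. -/
structure HasOneCycleFacts (W : WeilTheory.{u, v, w} C) : Prop where
  polarized : C.Polarized
  curveGenerated : CurveGenerated W
  divisorsByH1 : DivisorsByH1 W
  hasLefOne : HasLefOne W

/-- (1) The map `D^(n-1) : CH^1(X)_hom → CH^n(X)_hom` is bijective for all `X` and `D`. -/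
def AllArithLef (W : WeilTheory.{u, v, w} C) : Prop :=
  ∀ X : 𝒱.Obj, 0 < X.dim → ∀ D Λ, IsLefOne W X D Λ → ArithLefOne W X D

/-- (2) It is surjective for one `D` on each `X`. -/
def SomeSurj (W : WeilTheory.{u, v, w} C) : Prop :=
  ∀ X : 𝒱.Obj, 0 < X.dim → ∃ D Λ, IsLefOne W X D Λ ∧ SurjOne W X D

/-- (3) Correspondences in `CH^n(X × X)` which act as zero on `H^(2n-1)(X)` kill `CH^n(X)_hom`. -/
def AllWeight (W : WeilTheory.{u, v, w} C) : Prop :=
  ∀ X : 𝒱.Obj, 0 < X.dim → ∀ γ ∈ C.gr (X.prod X) X.dim,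
    KillsSub (W.gr X (2 * X.dim - 1)) (W.act γ) → KillsPoints W γ

/-- (4) Homologically trivial correspondences in `CH^n(X × X)` kill `CH^n(X)_hom`. -/
def AllHomTrivial (W : WeilTheory.{u, v, w} C) : Prop :=
  ∀ X : 𝒱.Obj, 0 < X.dim → ∀ γ ∈ C.gr (X.prod X) X.dim, KillsSub ⊤ (W.act γ) → KillsPoints W γ

/-- (5) For curves `Γ`, correspondences in `CH^n(Γ × X)` which act as zero on `H^1(Γ)` kill
`CH^1(Γ)_hom`. -/
def AllCurves (W : WeilTheory.{u, v, w} C) : Prop :=
  ∀ Γ X : 𝒱.Obj, Γ.dim = 1 → ∀ γ ∈ C.gr (Γ.prod X) X.dim, KillsSub (W.gr Γ 1) (W.act γ) →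
    KillsPoints W γ

/-- (6) All degree operators `d` in `CH^n(X × X)`, that is `d = j` on `H^j(X)`, act on `CH^n(X)_hom`
as multiplication by `2n - 1`. -/
def AllDegree (W : WeilTheory.{u, v, w} C) : Prop :=
  ∀ X : 𝒱.Obj, 0 < X.dim → ∀ d, W.IsDegree X d →
    ScalesKer (W.cl X) (C.gr X X.dim) (C.act d) (2 * X.dim - 1)

end Pool.Agent.R368.Zero
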